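import Pool.Agent.W102.GI.Defs

/-! Project GI (MP_a1a173_co), part POL. -/

set_option autoImplicit false

namespace Pool.Agent.W765.GI

open Finset Pool.Agent.W102.GI

theorem des_le {n : ℕ} (w : SP n) : des w ≤ n := by
  unfold des
  have h1 : (Finset.univ.filter (fun j : Fin n => j.val = 0 ∧ w.2 j = true)).card ≤
      (Finset.univ.filter (fun j : Fin n => j.val = 0)).card := by
    apply Finset.card_le_card
    intro j hj
    rw [mem_filter] at hj ⊢
    exact ⟨hj.1, hj.2.1⟩
  have h2 : (Finset.univ.filter (fun p : Fin n × Fin n => p.2.val = p.1.val + 1 ∧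
      sv w p.2 < sv w p.1)).card ≤ (Finset.univ.filter (fun j : Fin n => ¬ j.val = 0)).card := by
    apply Finset.card_le_card_of_injOn (fun p => p.2)
    · intro p hp
      rw [mem_coe, mem_filter] at hp
      rw [mem_coe, mem_filter]
      refine ⟨mem_univ _, ?_⟩
      have h6 : (p.2 : ℕ) = p.1 + 1 := hp.2.1
      change ¬ (p.2 : ℕ) = 0
      omega
    · intro p hp p' hp' h
      rw [mem_coe, mem_filter] at hp hp'
      have h3 : p.2 = p'.2 := h
      have h4 := hp.2.1
      have h5 := hp'.2.1
      rw [h3] at h4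
      exact Prod.ext (Fin.ext (by omega)) h3
  have h3 := Finset.card_filter_add_card_filter_not (s := (Finset.univ : Finset (Fin n)))
    (fun j : Fin n => j.val = 0)
  rw [card_univ, Fintype.card_fin] at h3
  omega

theorem coeff_XS {n d : ℕ} (hd : d ≤ n) (r : ℕ) :
    PowerSeries.coeff r ((PowerSeries.X : PowerSeries ℚ) ^ d * S n) =
      (Nat.choose (r + n - d) n : ℚ) := by
  rw [PowerSeries.coeff_X_pow_mul']
  split_ifs with h
  · rw [S, PowerSeries.coeff_mk]
    congr 2
    omega
  · rw [Nat.choose_eq_zero_of_lt (by omega), Nat.cast_zero]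

theorem S_ne (n : ℕ) : S n ≠ 0 := by
  intro h
  have h1 := congrArg (PowerSeries.coeff 0) h
  rw [S, PowerSeries.coeff_mk, map_zero, zero_add, Nat.choose_self, Nat.cast_one] at h1
  exact one_ne_zero h1

theorem POL (h1 : ZF) (h2 : GSUM) : Pool.Agent.W102.GI.POL := by
  intro n
  apply Polynomial.coe_injective ℚ
  apply mul_right_cancel₀ (S_ne n)
  ext r
  have hL : PowerSeries.coeff r (((∑ w ∈ invs n, (Polynomial.X : Polynomial ℚ) ^ des w :
      Polynomial ℚ) : PowerSeries ℚ) * S n) = (F n r : ℚ) := by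
    rw [← h1 n r]
    have h3 : ((∑ w ∈ invs n, (Polynomial.X : Polynomial ℚ) ^ des w :
        Polynomial ℚ) : PowerSeries ℚ) = ∑ w ∈ invs n, (PowerSeries.X : PowerSeries ℚ) ^ des w := by
      have h4 := map_sum (Polynomial.coeToPowerSeries.ringHom (R := ℚ))
        (fun w : SP n => (Polynomial.X : Polynomial ℚ) ^ des w) (invs n)
      simp only [map_pow, Polynomial.coeToPowerSeries.ringHom_apply, Polynomial.coe_X] at h4
      exact h4
    rw [h3, Finset.sum_mul, map_sum, Nat.cast_sum]
    exact Finset.sum_congr rfl fun w _ => coeff_XS (des_le w) r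
  have hR : PowerSeries.coeff r (((∑ k ∈ Finset.range (n / 2 + 1),
        Polynomial.C (gam n k) * Polynomial.X ^ k * (1 + Polynomial.X) ^ (n - 2 * k) :
      Polynomial ℚ) : PowerSeries ℚ) * S n) = (F n r : ℚ) := by
    rw [← h2 n r]
    have h3 : ((∑ k ∈ Finset.range (n / 2 + 1),
        Polynomial.C (gam n k) * Polynomial.X ^ k * (1 + Polynomial.X) ^ (n - 2 * k) :
        Polynomial ℚ) : PowerSeries ℚ) = ∑ k ∈ Finset.range (n / 2 + 1),
        PowerSeries.C (gam n k) * PowerSeries.X ^ k * (1 + PowerSeries.X) ^ (n - 2 * k) := by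
      have h4 := map_sum (Polynomial.coeToPowerSeries.ringHom (R := ℚ))
        (fun k : ℕ => Polynomial.C (gam n k) * Polynomial.X ^ k *
          (1 + Polynomial.X) ^ (n - 2 * k)) (Finset.range (n / 2 + 1))
      simp only [map_pow, map_mul, map_add, map_one, Polynomial.coeToPowerSeries.ringHom_apply,
        Polynomial.coe_X, Polynomial.coe_C] at h4
      exact h4
    rw [h3, Finset.sum_mul, map_sum]
    apply Finset.sum_congr rfl
    intro k _
    have h5 : PowerSeries.C (gam n k) * PowerSeries.X ^ k * (1 + PowerSeries.X) ^ (n - 2 * k) *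
        S n = PowerSeries.C (gam n k) * hs n k := by
      rw [hs]
      ring
    rw [h5, PowerSeries.coeff_C_mul]
  rw [hL, hR]

end Pool.Agent.W765.GI
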